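import Pool.Agent.Helper26.KD.St
import Pool.Agent.Helper22.NL.M_G3

/-! # Project CB (MP_65faa7, bulk case), module G3p: the third moment of the expansion for all `p ≤ pH` -/

set_option autoImplicit false

open scoped BigOperators Polynomial ENNReal
open Polynomial Pool.LE Pool.NL

namespace Pool.KD

namespace G3pM

theorem eNN (a b : ℝ) (m n k : ℕ) (ha : 0 ≤ a) :
    ENNReal.ofReal ((m : ℝ) * 10 ^ n * a ^ k * b) =
      (m : ENNReal) * 10 ^ n * (ENNReal.ofReal a) ^ k * ENNReal.ofReal b := by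
  rw [ENNReal.ofReal_mul (by positivity), ENNReal.ofReal_mul (by positivity),
    ENNReal.ofReal_mul (by positivity), ENNReal.ofReal_pow ha, ENNReal.ofReal_pow (by norm_num),
    ENNReal.ofReal_natCast]
  norm_num

open Classical in
/-- the third moment, uniformly over all finite graphs and all `p ≤ pH` -/
theorem diag (hDR : StDiagR) (hKT : StKpTau) (hTD : StTauDom) (hTM : StTauMono) (hTB : StTauBasic)
    (hBox : StBox) (hB8 : StB8) : ∃ d₁ : ℕ, ∀ d : ℕ, d₁ ≤ d → ∀ p : ℝ, 0 ≤ p → p ≤ pH d →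
      ∀ E : Finset (Sym2 (Zd d)), (E : Set (Sym2 (Zd d))) ⊆ latE d → ∀ (M : ℕ) (v : Zd d),
        ∑' x : Zd d, NNr 3 (gE E p M v x - if x = v then 1 else 0) ≤ ENNReal.ofReal (1 / 4) := by
  obtain ⟨C, hC, d₁, h1⟩ := hKT 1024
  obtain ⟨d₂, -, h2⟩ := hB8
  set C' : ℝ := max C 1 with hC'
  have hC1 : 1 ≤ C' := le_max_right _ _
  have hCC : C ≤ C' := le_max_left _ _
  have hC0 : 0 ≤ C' := by linarith
  obtain ⟨d₃, h3⟩ := exists_nat_ge ((2 * 10 ^ 17 * C' ^ 11) ^ 2)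
  refine ⟨max d₁ (max d₂ (max d₃ 1)), ?_⟩
  intro d hd p hp0 hpH E hE M v
  have hd1 : d₁ ≤ d := le_trans (le_max_left _ _) hd
  have hd2 : d₂ ≤ d := le_trans (le_trans (le_max_left _ _) (le_max_right _ _)) hd
  have hd3 : d₃ ≤ d :=
    le_trans (le_trans (le_trans (le_max_left _ _) (le_max_right _ _)) (le_max_right _ _)) hd
  have hd4 : 1 ≤ d :=
    le_trans (le_trans (le_trans (le_max_right _ _) (le_max_right _ _)) (le_max_right _ _)) hd
  obtain ⟨hpH0, -, hpH2, -, -⟩ := h2 d hd2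
  have hpH1 : pH d ≤ 1 := by linarith
  have hp2 : p ≤ 1 / 2 := by linarith
  have hp1 : p ≤ 1 := by linarith
  obtain ⟨-, ht0, htS, htE, -⟩ := hTB d (pH d) hpH0.le hpH1
  have hb : ∀ x b : Zd d, s(x, b) ∈ latE d ↔ b ∈ nb x := (hBox d).2.2.2.2.2.1
  have hsq : 2 * 10 ^ 17 * C' ^ 11 ≤ Real.sqrt d := by
    refine Real.le_sqrt_of_sq_le (h3.trans ?_)
    exact_mod_cast hd3
  have hsq0 : 0 < Real.sqrt d := Real.sqrt_pos.2 (by exact_mod_cast hd4)
  have hr : C / Real.sqrt d ≤ C' / Real.sqrt d := by gcongr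
  have hr0 : 0 ≤ C / Real.sqrt d := by positivity
  have hk : C' ^ 10 * (C / Real.sqrt d) ≤ 1 / (2 * 10 ^ 17) := by
    calc C' ^ 10 * (C / Real.sqrt d) ≤ C' ^ 10 * (C' / Real.sqrt d) := by gcongr
      _ = C' ^ 11 / Real.sqrt d := by ring
      _ ≤ 1 / (2 * 10 ^ 17) := by
        rw [div_le_div_iff₀ hsq0 (by norm_num)]
        linarith
  have hk4 : C' ^ 4 * (C / Real.sqrt d) ≤ 1 / (2 * 10 ^ 17) := by
    refine le_trans ?_ hk
    have : C' ^ 4 ≤ C' ^ 10 := pow_le_pow_right₀ hC1 (by norm_num)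
    gcongr
  have hsym : ∀ x : Zd d, tauE d (pH d) (-x) = tauE d (pH d) x := by
    intro x
    rw [← htE, ← htE]
    congr 1
    have := htS 1 (fun _ => -1) x
    rw [← this]
    congr 1
    ext i
    simp [sgp]
  have hTK : TK (tk d (pH d)) (ENNReal.ofReal C') := by
    refine ⟨fun x => ?_, fun x y => ?_, fun x y => ?_⟩
    · unfold tk
      rw [sub_self, ht0]
    · unfold tk
      rw [← hsym, neg_sub]
    · exact ((h1 d hd1 x y).1).trans (ENNReal.ofReal_le_ofReal hCC)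
  have key := hDR (Zd d) E p (tk d (pH d)) (ENNReal.ofReal C') (ENNReal.ofReal (C / Real.sqrt d))
    nb hp0 hp2 (fun x y => (hTD d p E x y hp0 hp1 hE).trans (hTM d p (pH d) _ hp0 hpH hpH1))
    (fun u b h => (hb u b).1 (hE h)) hTK
    (by rw [← ENNReal.ofReal_one]; exact ENNReal.ofReal_le_ofReal hC1)
    (fun x y => (Finset.sum_le_sum fun b _ =>
      mul_le_mul' (ENNReal.ofReal_le_ofReal hpH) le_rfl).trans (h1 d hd1 x y).2) ?_ M v
  · refine key.trans ?_
    have e := eNN C' (C / Real.sqrt d) 5 16 10 hC0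
    push_cast at e
    rw [← e]
    refine ENNReal.ofReal_le_ofReal ?_
    calc 5 * 10 ^ 16 * C' ^ 10 * (C / Real.sqrt d) = 5 * 10 ^ 16 * (C' ^ 10 * (C / Real.sqrt d)) := by
          ring
      _ ≤ 5 * 10 ^ 16 * (1 / (2 * 10 ^ 17)) := by gcongr
      _ = 1 / 4 := by norm_num
  · have e := eNN C' (C / Real.sqrt d) 4 8 4 hC0
    push_cast at e
    rw [← e]
    have h12 : (1 / 2 : ENNReal) = ENNReal.ofReal (1 / 2) := by
      rw [ENNReal.ofReal_div_of_pos (by norm_num), ENNReal.ofReal_one, ENNReal.ofReal_ofNat]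
    rw [h12]
    refine ENNReal.ofReal_le_ofReal ?_
    calc 4 * 10 ^ 8 * C' ^ 4 * (C / Real.sqrt d) = 4 * 10 ^ 8 * (C' ^ 4 * (C / Real.sqrt d)) := by
          ring
      _ ≤ 4 * 10 ^ 8 * (1 / (2 * 10 ^ 17)) := by gcongr
      _ ≤ 1 / 2 := by norm_num

end G3pM

open G3pM in
theorem hG3p (hDR : StDiagR) (hKT : StKpTau) (hTD : StTauDom) (hTM : StTauMono) (hTB : StTauBasic)
    (hBox : StBox) (hB8 : StB8) (hG : StGcoef) : StG3p := by
  classical
  obtain ⟨d₁, h⟩ := diag hDR hKT hTD hTM hTB hBox hB8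
  refine ⟨d₁, fun d hd p hp0 hpH => ?_⟩
  refine tsum_le_G3 _ _ fun M => ?_
  have hsub : ((Eb d M : Finset (Sym2 (Zd d))) : Set (Sym2 (Zd d))) ⊆ latE d :=
    (hBox d).2.2.2.2.2.2.2.2.1 (bx d M)
  refine le_trans (ENNReal.tsum_le_tsum fun x => ?_) (h d hd p hp0 hpH (Eb d M) hsub M 0)
  refine sum_le_NNr_G3 M _ (fun m => hm d p m x) fun m hm' => ?_
  have htr : trE 0 (Eb d m) ⊆ Eb d M := by
    intro e he
    unfold trE at he
    obtain ⟨e', he', rfl⟩ := Finset.mem_map.1 he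
    have h0 : ((Equiv.addLeft (0 : Zd d)).toEmbedding.sym2Map) e' = e' := by
      induction e' with
      | _ a b => simp [Function.Embedding.sym2Map]
    rw [h0]
    exact (hBox d).2.2.2.2.2.2.2.2.2.1 m M hm'.le he'
  have h1 := hG d p M m (Eb d M) 0 x hm'.le hsub htr
  rw [coeff_sub, h1, sub_zero]
  unfold hm
  congr 1
  by_cases hx : x = 0
  · rw [if_pos hx, coeff_one]
    simp [hx]
  · rw [if_neg hx, coeff_zero, if_neg (fun hh => hx hh.2)]

end Pool.KD
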